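import Mathlib
import Pool.Agent.Lib.MP_40021b_an.Main
import Pool.Agent.Lib.MP_40021b_an.BrConverse

set_option autoImplicit false

/-!
# Linearizability of elliptic polynomials and the Brjuno condition

Let `P` be a complex polynomial of degree at least `2` with `P 0 = 0` whose multiplier
`l = P' 0` has modulus one and is not a root of unity.  Then `P` is holomorphically linearizable
at `0` if and only if `l` is a Brjuno number.

The new part is the implication from left to right (Douady's conjecture): a multiplier that is not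
a Brjuno number forces a Cremer point.  The implication from right to left is the classical
theorem of Brjuno, which is proved as well.
-/

namespace Pool.Agent.Results.MP_40021b_an.Douady

open Polynomial Topology Filter

/-- A function `f` with `f 0 = 0` and multiplier `l` is holomorphically linearizable at `0` if
there is a biholomorphism `φ` between neighbourhoods of `0`, with inverse `ψ` and `φ 0 = 0`, such
that `φ (f (ψ w)) = l * w` for all `w` near `0`. -/
def HolomorphicallyLinearizable (f : ℂ → ℂ) (l : ℂ) : Prop :=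
  ∃ φ ψ : ℂ → ℂ, AnalyticAt ℂ φ 0 ∧ AnalyticAt ℂ ψ 0 ∧ φ 0 = 0 ∧ ψ 0 = 0 ∧
    (∀ᶠ w in 𝓝 (0 : ℂ), φ (ψ w) = w) ∧ (∀ᶠ z in 𝓝 (0 : ℂ), ψ (φ z) = z) ∧
    ∀ᶠ w in 𝓝 (0 : ℂ), φ (f (ψ w)) = l * w

/-- `smallestDivisor l m` is the minimum of `|l ^ k - 1|` over `1 ≤ k ≤ m` (for `m ≥ 1`). -/
noncomputable def smallestDivisor (l : ℂ) (m : ℕ) : ℝ :=
  sInf ((fun k : ℕ => ‖l ^ k - 1‖) '' Set.Icc 1 m)

/-- The Brjuno condition: the series with terms
`2 ^ (-k) * log (1 / smallestDivisor l (2 ^ (k + 1)))`, `k ≥ 0`, converges. -/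
def IsBrjuno (l : ℂ) : Prop :=
  Summable fun k : ℕ => (2 : ℝ)⁻¹ ^ k * Real.log (1 / smallestDivisor l (2 ^ (k + 1)))

/-- An elliptic polynomial is holomorphically linearizable at `0` if and only if its multiplier is
a Brjuno number. -/
theorem result (P : ℂ[X]) (hdeg : 2 ≤ P.natDegree) (hzero : P.eval 0 = 0)
    (hunit : ‖P.derivative.eval 0‖ = 1)
    (hroot : ∀ n : ℕ, 1 ≤ n → P.derivative.eval 0 ^ n ≠ 1) :
    HolomorphicallyLinearizable (fun z => P.eval z) (P.derivative.eval 0) ↔
      IsBrjuno (P.derivative.eval 0) := by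
  constructor
  · intro h
    exact DY.main hdeg hzero hunit hroot h
  · intro h
    exact DY.brjuno_converse hzero rfl hunit hroot h

end Pool.Agent.Results.MP_40021b_an.Douady
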